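import Mathlib
import Pool.Agent.H28.Trunc

set_option autoImplicit false

namespace Pool.Agent.Results.MP_65850b_an.Far

open Real

/-- the kernel, the summation index `n + 1` running over the positive integers -/
noncomputable def Φ (t : ℝ) : ℝ := ∑' n : ℕ, (2 * π ^ 2 * ((n : ℝ) + 1) ^ 4 * exp (9 * t) -
  3 * π * ((n : ℝ) + 1) ^ 2 * exp (5 * t)) * exp (-π * ((n : ℝ) + 1) ^ 2 * exp (4 * t))

/-- the finite cosine transform -/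
noncomputable def H (R : ℝ) (z : ℂ) : ℂ := ∫ t in (0 : ℝ)..R, (Φ t : ℂ) * Complex.cos (z * t)

theorem result : (∀ R₀ : ℝ, 0 < R₀ → ∃ R, R₀ ≤ R ∧ ∃ z : ℂ, H R z = 0 ∧ 1 ≤ |z.im|) ∧
    ∀ h : ℝ, ∃ R₁ : ℝ, ∀ R, R₁ ≤ R → ∃ z : ℂ, H R z = 0 ∧ z.im ≠ 0 ∧ h ≤ |z.im| := by
  have key : ∀ h : ℝ, ∃ R₁ : ℝ, ∀ R, R₁ ≤ R → ∃ z : ℂ, H R z = 0 ∧ z.im ≠ 0 ∧ h ≤ |z.im| := fun h => by
    obtain ⟨R₁, hR⟩ := Filter.eventually_atTop.1 (Pool.Agent.H28.Trunc.main |h|)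
    refine ⟨R₁, fun R hr => ?_⟩
    obtain ⟨z, h1, h2⟩ := hR R hr
    exact ⟨z, h2, ((abs_nonneg h).trans_lt h1).ne',
      (le_abs_self h).trans (h1.le.trans (le_abs_self _))⟩
  refine ⟨fun R₀ _ => ?_, key⟩
  obtain ⟨R₁, hR⟩ := key 1
  obtain ⟨z, h1, -, h2⟩ := hR (max R₀ R₁) (le_max_right _ _)
  exact ⟨_, le_max_left _ _, z, h1, h2⟩

end Pool.Agent.Results.MP_65850b_an.Far
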